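import Pool.Agent.H293R3.RM.Main

set_option autoImplicit false
set_option linter.unusedSectionVars false
open MeasureTheory Filter Topology
open Pool.Agent.H716R2

namespace Pool.Agent.H293R3.RM

variable {X : Type*} [MeasurableSpace X]

/-- the deviation of a correlation from the product of the means -/
noncomputable def dev (μ : Measure X) (T : X ≃ᵐ X) {r : ℕ} (f : Fin r → X → ℝ)
    (t : Fin r → ℕ) : ℝ :=
  ∫ x, ∏ i, f i ((⇑T)^[t i] x) ∂μ - ∏ i, ∫ x, f i x ∂μ

/-- Bessel inequality for the deviations, along spread out times. -/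
theorem bessel_corr {μ : Measure X} [IsProbabilityMeasure μ] {T : X ≃ᵐ X}
    (hT : MeasurePreserving T μ μ) {k : ℕ} (hk : 1 ≤ k) (hfact : FactSet μ T (k + 1))
    (f : Fin (k + 2) → X → ℝ) (hf : ∀ i, BM (f i)) {ε : ℝ} (hε : 0 < ε) (K : ℕ) :
    ∃ D : ℕ, 1 ≤ D ∧ ∀ a : Fin K → Fin (k + 2) → ℕ, (∀ p, a p 0 = 0) →
      (∀ p q, p ≠ q → Sep D (a p) (a q)) → ∀ s : ℕ → Fin (k + 2) → ℕ, Spread s →
      ∀ᶠ n in atTop, ∑ p, (dev μ T f (fun i => s n i + a p i)) ^ 2
        ≤ ∏ i, (∫ x, (f i x - ∫ y, f i y ∂μ) ^ 2 ∂μ) + ε := by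
  classical
  have hmix : Mixing μ T := mixing_of_factSet hk hfact
  let g : Fin (k + 2) → X → ℝ := fun i x => f i x - ∫ y, f i y ∂μ
  have hg : ∀ i, BM (g i) := fun i => (hf i).sub_const _
  have hg0 : ∀ i, ∫ x, g i x ∂μ = 0 := by
    intro i
    simp only [g]
    rw [integral_sub (hf i).int (integrable_const _)]
    simp
  set V0 : ℝ := ∫ x, g 0 x ^ 2 ∂μ with hV0
  set P : ℝ := ∏ i : Fin (k + 1), ∫ x, g i.succ x ^ 2 ∂μ with hP
  have hV0n : 0 ≤ V0 := integral_nonneg fun x => sq_nonneg _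
  have hPn : 0 ≤ P := Finset.prod_nonneg fun i _ => integral_nonneg fun x => sq_nonneg _
  have hV : ∏ i, (∫ x, (f i x - ∫ y, f i y ∂μ) ^ 2 ∂μ) = V0 * P := by
    rw [Fin.prod_univ_succ]
  rw [hV]
  let δ : ℝ := ε / (4 * (V0 * K + 1))
  have hδ : 0 < δ := by positivity
  have hδV : V0 * (K * (2 * δ)) ≤ ε / 2 := by
    have h1 : V0 * (K * (2 * δ)) = (V0 * K) * ε / (2 * (V0 * K + 1)) := by
      simp only [δ]
      field_simp
      ring
    rw [h1, div_le_div_iff₀ (by positivity) (by norm_num)]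
    have : 0 ≤ V0 * K := by positivity
    nlinarith
  obtain ⟨D0, hD0⟩ := prod_corr_small hT hmix (m := k + 1) (g := fun i => g i.succ)
    (fun i => hg _) (fun i => hg0 _) hδ
  refine ⟨D0 + 1, by omega, fun a ha0 hsep s hs => ?_⟩
  have hsep' : ∀ p q, p ≠ q →
      Sep D0 (fun i : Fin (k + 1) => a p i.succ) (fun i => a q i.succ) := by
    intro p q hpq
    obtain ⟨j, hj⟩ := hsep p q hpq
    induction j using Fin.cases with
    | zero =>
      have := ha0 p
      have := ha0 q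
      omega
    | succ j => exact ⟨j, by simp only; omega⟩
  -- the vectors
  let v : ℕ → Fin K → X → ℝ := fun n p x =>
    ∏ i : Fin (k + 1), g i.succ ((⇑T)^[s n i.succ + a p i.succ] x)
  have hv : ∀ n p, BM (v n p) := fun n p =>
    BM.prod _ (fun i : Fin (k + 1) => (hg i.succ).comp T (s n i.succ + a p i.succ))
  have hs' : Spread (fun n (i : Fin (k + 1)) => s n i.succ) := by
    intro N
    filter_upwards [hs N] with n hn
    intro i j hij
    exact hn _ _ (Fin.succ_lt_succ_iff.2 hij)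
  have hM : ∀ p q, ∀ᶠ n in atTop,
      |∫ x, v n p x * v n q x ∂μ - (if p = q then P else 0)| ≤ 2 * δ := by
    intro p q
    let G : Fin (k + 1) → X → ℝ := fun i y =>
      g i.succ ((⇑T)^[a p i.succ] y) * g i.succ ((⇑T)^[a q i.succ] y)
    have hG : ∀ i, BM (G i) := fun i => ((hg _).comp T _).mul ((hg _).comp T _)
    have hlim := fact_fun hT hfact hs' G (fun i => (hG i).meas) (fun i => (hG i).bdd)
    have e1 : ∀ n, ∫ x, ∏ i, G i ((⇑T)^[s n i.succ] x) ∂μ = ∫ x, v n p x * v n q x ∂μ := by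
      intro n
      congr 1
      ext x
      simp only [v, G]
      rw [← Finset.prod_mul_distrib]
      refine Finset.prod_congr rfl (fun i _ => ?_)
      rw [← Function.iterate_add_apply, ← Function.iterate_add_apply,
        add_comm (a p i.succ), add_comm (a q i.succ)]
    have hclose : |∏ i, ∫ x, G i x ∂μ - (if p = q then P else 0)| ≤ δ := by
      by_cases hpq : p = q
      · subst hpq
        rw [if_pos rfl]
        have : ∏ i, ∫ x, G i x ∂μ = P := by
          rw [hP]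
          refine Finset.prod_congr rfl (fun i _ => ?_)
          simp only [G]
          rw [shift_corr hT (hg i.succ) le_rfl]
          congr 1
          ext y
          simp [sq]
        rw [this, sub_self, abs_zero]
        exact hδ.le
      · rw [if_neg hpq, sub_zero]
        exact hD0 _ _ (hsep' p q hpq)
    have h2 := (Metric.tendsto_atTop.1 hlim) δ hδ
    obtain ⟨n0, hn0⟩ := h2
    filter_upwards [eventually_ge_atTop n0] with n hn
    have h3 := hn0 n hn
    rw [Real.dist_eq, e1 n] at h3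
    calc |∫ x, v n p x * v n q x ∂μ - (if p = q then P else 0)|
        = |(∫ x, v n p x * v n q x ∂μ - ∏ i, ∫ x, G i x ∂μ)
            + (∏ i, ∫ x, G i x ∂μ - (if p = q then P else 0))| := by congr 1; ring
      _ ≤ |∫ x, v n p x * v n q x ∂μ - ∏ i, ∫ x, G i x ∂μ|
            + |∏ i, ∫ x, G i x ∂μ - (if p = q then P else 0)| := abs_add_le _ _
      _ ≤ 2 * δ := by linarith
  have hMall : ∀ᶠ n in atTop, ∀ p q,
      |∫ x, v n p x * v n q x ∂μ - (if p = q then P else 0)| ≤ 2 * δ :=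
    eventually_all.2 fun p => eventually_all.2 fun q => hM p q
  -- the errors
  let c0 : ℕ → Fin K → ℝ := fun n p =>
    ∫ x, ∏ i, (f i ((⇑T)^[s n i + a p i] x) - ∫ y, f i y ∂μ) ∂μ
  let e : ℕ → Fin K → ℝ := fun n p => dev μ T f (fun i => s n i + a p i) - c0 n p
  have he : ∀ p, Tendsto (fun n => e n p) atTop (𝓝 0) := by
    intro p
    have hsp : Spread (fun n i => s n i + a p i) := by
      intro N
      filter_upwards [hs (N + Finset.univ.sup (a p))] with n hn
      intro i j hij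
      have h1 := hn i j hij
      have h2 : a p i ≤ Finset.univ.sup (a p) := Finset.le_sup (Finset.mem_univ i)
      omega
    exact center hT hfact hsp f hf
  set B : ℝ := V0 * (P + K * (2 * δ)) with hB
  have hBn : 0 ≤ B := by positivity
  have herr : Tendsto (fun n => ∑ p, (2 * Real.sqrt B * |e n p| + (e n p) ^ 2)) atTop (𝓝 0) := by
    have h1 : Tendsto (fun n => ∑ p, (2 * Real.sqrt B * |e n p| + (e n p) ^ 2)) atTop
        (𝓝 (∑ _p : Fin K, (2 * Real.sqrt B * |(0 : ℝ)| + (0 : ℝ) ^ 2))) := by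
      refine tendsto_finsetSum _ (fun p _ => ?_)
      exact ((he p).abs.const_mul _).add ((he p).pow 2)
    simpa using h1
  have herr' : ∀ᶠ n in atTop, ∑ p, (2 * Real.sqrt B * |e n p| + (e n p) ^ 2) < ε / 2 :=
    herr.eventually_lt_const (by positivity)
  filter_upwards [hMall, herr'] with n hn1 hn2
  have hb := bessel (μ := μ) ((hg 0).comp T (s n 0)) (hv n) hPn (by positivity : 0 < 2 * δ) hn1
  have hc0 : ∀ p, c0 n p = ∫ x, g 0 ((⇑T)^[s n 0] x) * v n p x ∂μ := by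
    intro p
    simp only [c0, v]
    congr 1
    ext x
    rw [Fin.prod_univ_succ, ha0 p, add_zero]
  have hV0' : ∫ x, g 0 ((⇑T)^[s n 0] x) ^ 2 ∂μ = V0 := by
    have h1 := shift_corr hT (hg 0) (le_refl (s n 0))
    rw [hV0]
    have h2 : ∫ x, g 0 ((⇑T)^[s n 0] x) ^ 2 ∂μ
        = ∫ x, g 0 ((⇑T)^[s n 0] x) * g 0 ((⇑T)^[s n 0] x) ∂μ := by
      congr 1
      ext x
      ring
    rw [h2, h1]
    congr 1
    ext x
    simp [sq]
  rw [hV0'] at hb
  simp_rw [← hc0] at hb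
  have hsingle : ∀ p, |c0 n p| ≤ Real.sqrt B := by
    intro p
    apply Real.abs_le_sqrt
    calc (c0 n p) ^ 2 ≤ ∑ q, (c0 n q) ^ 2 :=
          Finset.single_le_sum (f := fun q => (c0 n q) ^ 2) (fun q _ => sq_nonneg _)
            (Finset.mem_univ p)
      _ ≤ B := hb
  have hterm : ∀ p, (dev μ T f (fun i => s n i + a p i)) ^ 2
      ≤ (c0 n p) ^ 2 + (2 * Real.sqrt B * |e n p| + (e n p) ^ 2) := by
    intro p
    have h1 : dev μ T f (fun i => s n i + a p i) = c0 n p + e n p := by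
      simp only [e]
      ring
    rw [h1]
    have h2 : c0 n p * e n p ≤ Real.sqrt B * |e n p| := by
      calc c0 n p * e n p ≤ |c0 n p * e n p| := le_abs_self _
        _ = |c0 n p| * |e n p| := abs_mul _ _
        _ ≤ Real.sqrt B * |e n p| := mul_le_mul_of_nonneg_right (hsingle p) (abs_nonneg _)
    nlinarith
  calc ∑ p, (dev μ T f (fun i => s n i + a p i)) ^ 2
      ≤ ∑ p, ((c0 n p) ^ 2 + (2 * Real.sqrt B * |e n p| + (e n p) ^ 2)) :=
        Finset.sum_le_sum fun p _ => hterm p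
    _ = ∑ p, (c0 n p) ^ 2 + ∑ p, (2 * Real.sqrt B * |e n p| + (e n p) ^ 2) :=
        Finset.sum_add_distrib
    _ ≤ B + ε / 2 := by linarith
    _ ≤ V0 * P + ε := by
        rw [hB, mul_add]
        linarith

/-- From sequences of spread out times to all spread out times. -/
theorem forall_of_spread' {r : ℕ} (Q : (Fin r → ℕ) → Prop)
    (hQ : ∀ s : ℕ → Fin r → ℕ, Spread s → ∀ᶠ n in atTop, Q (s n)) :
    ∃ N : ℕ, ∀ t : Fin r → ℕ, (∀ i j, i < j → t i + N ≤ t j) → Q t := by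
  by_contra hcon
  push Not at hcon
  choose t ht1 ht2 using hcon
  have hs : Spread t := by
    intro N
    filter_upwards [eventually_ge_atTop N] with n hn
    intro i j hij
    have := ht1 n i j hij
    omega
  obtain ⟨n, hn⟩ := (hQ t hs).exists
  exact ht2 n hn

/-- Bessel inequality, uniform in the windows. -/
theorem bessel_window {μ : Measure X} [IsProbabilityMeasure μ] {T : X ≃ᵐ X}
    (hT : MeasurePreserving T μ μ) {k : ℕ} (hk : 1 ≤ k) (hfact : FactSet μ T (k + 1))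
    (f : Fin (k + 2) → X → ℝ) (hf : ∀ i, BM (f i)) {ε : ℝ} (hε : 0 < ε) (K : ℕ) :
    ∃ D : ℕ, 1 ≤ D ∧ ∀ R : ℕ, ∃ N : ℕ, ∀ t : Fin (k + 2) → ℕ,
      (∀ i j, i < j → t i + N ≤ t j) → ∀ a : Fin K → Fin (k + 2) → ℕ, (∀ p i, a p i ≤ R) →
      (∀ p, a p 0 = 0) → (∀ p q, p ≠ q → Sep D (a p) (a q)) →
      ∑ p, (dev μ T f (fun i => t i + a p i)) ^ 2
        ≤ ∏ i, (∫ x, (f i x - ∫ y, f i y ∂μ) ^ 2 ∂μ) + ε := by
  classical
  obtain ⟨D, hD1, hD⟩ := bessel_corr hT hk hfact f hf hε K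
  refine ⟨D, hD1, fun R => ?_⟩
  have h1 : ∀ b : Fin K → Fin (k + 2) → Fin (R + 1), ∃ N : ℕ,
      ((∀ p, ((b p 0 : Fin (R + 1)) : ℕ) = 0) ∧
        (∀ p q, p ≠ q → Sep D (fun i => (b p i : ℕ)) (fun i => (b q i : ℕ)))) →
      ∀ t : Fin (k + 2) → ℕ, (∀ i j, i < j → t i + N ≤ t j) →
      ∑ p, (dev μ T f (fun i => t i + (b p i : ℕ))) ^ 2
        ≤ ∏ i, (∫ x, (f i x - ∫ y, f i y ∂μ) ^ 2 ∂μ) + ε := by
    intro b
    by_cases hb : (∀ p, ((b p 0 : Fin (R + 1)) : ℕ) = 0) ∧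
        (∀ p q, p ≠ q → Sep D (fun i => (b p i : ℕ)) (fun i => (b q i : ℕ)))
    · obtain ⟨N, hN⟩ := forall_of_spread' (fun t : Fin (k + 2) → ℕ =>
        ∑ p, (dev μ T f (fun i => t i + (b p i : ℕ))) ^ 2
          ≤ ∏ i, (∫ x, (f i x - ∫ y, f i y ∂μ) ^ 2 ∂μ) + ε)
        (hD (fun p i => (b p i : ℕ)) hb.1 hb.2)
      exact ⟨N, fun _ => hN⟩
    · exact ⟨0, fun h => absurd h hb⟩
  choose N hN using h1
  refine ⟨Finset.univ.sup N, fun t ht a haR ha0 hsep => ?_⟩
  let b : Fin K → Fin (k + 2) → Fin (R + 1) := fun p i => ⟨a p i, Nat.lt_succ_of_le (haR p i)⟩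
  have hle : N b ≤ Finset.univ.sup N := Finset.le_sup (Finset.mem_univ b)
  exact hN b ⟨fun p => ha0 p, fun p q hpq => hsep p q hpq⟩ t (fun i j hij => by
    have := ht i j hij
    omega)

/-- The number of failures in a far out window is bounded, independently of the window. -/
theorem bounded_failures {μ : Measure X} [IsProbabilityMeasure μ] {T : X ≃ᵐ X}
    (hT : MeasurePreserving T μ μ) {k : ℕ} (hk : 1 ≤ k) (hfact : FactSet μ T (k + 1))
    (f : Fin (k + 2) → X → ℝ) (hf : ∀ i, BM (f i)) {ε : ℝ} (hε : 0 < ε) :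
    ∃ C : ℕ, ∀ R : ℕ, ∃ N : ℕ, ∀ t : Fin (k + 2) → ℕ, (∀ i j, i < j → t i + N ≤ t j) →
      {a : Fin (k + 2) → ℕ | a 0 = 0 ∧ (∀ i, a i ≤ R) ∧
        ε ≤ |dev μ T f (fun i => t i + a i)|}.ncard ≤ C := by
  classical
  set V : ℝ := ∏ i, (∫ x, (f i x - ∫ y, f i y ∂μ) ^ 2 ∂μ) with hV
  obtain ⟨K, hK⟩ := exists_nat_gt ((V + 1) / ε ^ 2)
  have hK' : V + 1 < K * ε ^ 2 := by
    rwa [div_lt_iff₀ (by positivity)] at hK
  obtain ⟨D, hD1, hD⟩ := bessel_window hT hk hfact f hf one_pos K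
  refine ⟨K * (2 * D) ^ (k + 2), fun R => ?_⟩
  obtain ⟨N, hN⟩ := hD R
  refine ⟨N, fun t ht => ?_⟩
  by_contra hcon
  push Not at hcon
  set A : Set (Fin (k + 2) → ℕ) := {a | a 0 = 0 ∧ (∀ i, a i ≤ R) ∧
        ε ≤ |dev μ T f (fun i => t i + a i)|} with hA
  have hfin : A.Finite := by
    refine (Set.Finite.pi (fun _ : Fin (k + 2) => Set.finite_Iic R)).subset ?_
    intro a ha
    simp only [Set.mem_pi, Set.mem_univ, Set.mem_Iic, forall_true_left]
    exact ha.2.1
  rw [Set.ncard_eq_toFinset_card A hfin] at hcon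
  obtain ⟨a, ha1, ha2⟩ := exists_separated hD1 K hfin.toFinset hcon
  have ha1' : ∀ p, a p ∈ A := fun p => (Set.Finite.mem_toFinset hfin).1 (ha1 p)
  have h1 := hN t ht a (fun p i => (ha1' p).2.1 i) (fun p => (ha1' p).1) ha2
  have h2 : K * ε ^ 2 ≤ ∑ p, (dev μ T f (fun i => t i + a p i)) ^ 2 := by
    calc (K : ℝ) * ε ^ 2 = ∑ _p : Fin K, ε ^ 2 := by simp
      _ ≤ _ := by
        refine Finset.sum_le_sum (fun p _ => ?_)
        rw [← sq_abs (dev μ T f _)]
        exact pow_le_pow_left₀ hε.le (ha1' p).2.2 2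
  linarith

end Pool.Agent.H293R3.RM
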