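import Pool.Agent.H293R3.RM.Asym

set_option autoImplicit false
set_option linter.unusedSectionVars false
open MeasureTheory Filter Topology
open Pool.Agent.H716R2

namespace Pool.Agent.H293R3.RM

variable {X : Type*} [MeasurableSpace X]

theorem Sep.symm {m : ℕ} {D : ℕ} {x y : Fin m → ℕ} (h : Sep D x y) : Sep D y x := by
  obtain ⟨j, hj⟩ := h
  exact ⟨j, Or.symm hj⟩

/-- a finite set of vectors has a maximal separated subset -/
theorem exists_maximal_separated {m : ℕ} (D : ℕ) (A : Finset (Fin m → ℕ)) :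
    ∃ F ⊆ A, (∀ x ∈ F, ∀ y ∈ F, x ≠ y → Sep D x y) ∧
      ∀ a ∈ A, ∃ b ∈ F, a = b ∨ ¬ Sep D a b := by
  classical
  let P := A.powerset.filter (fun F => ∀ x ∈ F, ∀ y ∈ F, x ≠ y → Sep D x y)
  have hP : P.Nonempty := ⟨∅, by simp [P]⟩
  obtain ⟨F, hF, hmax⟩ := P.exists_max_image Finset.card hP
  have hF' := Finset.mem_filter.1 hF
  refine ⟨F, Finset.mem_powerset.1 hF'.1, hF'.2, fun a ha => ?_⟩
  by_contra hcon
  push Not at hcon
  have haF : a ∉ F := fun h => (hcon a h).1 rfl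
  have hins : insert a F ∈ P := by
    rw [Finset.mem_filter, Finset.mem_powerset]
    refine ⟨Finset.insert_subset ha (Finset.mem_powerset.1 hF'.1), ?_⟩
    intro x hx y hy hxy
    rw [Finset.mem_insert] at hx hy
    rcases hx with hx | hx <;> rcases hy with hy | hy
    · exact absurd (hx.trans hy.symm) hxy
    · rw [hx]
      exact (hcon y hy).2
    · rw [hy]
      exact (hcon x hx).2.symm
    · exact hF'.2 x hx y hy hxy
  have := hmax _ hins
  rw [Finset.card_insert_of_notMem haF] at this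
  omega

/-- The failures of mixing in a far out window form a bounded number of clusters. -/
theorem clusters {μ : Measure X} [IsProbabilityMeasure μ] {T : X ≃ᵐ X}
    (hT : MeasurePreserving T μ μ) {k : ℕ} (hk : 1 ≤ k) (hfact : FactSet μ T (k + 1))
    (f : Fin (k + 2) → X → ℝ) (hf : ∀ i, BM (f i)) {ε : ℝ} (hε : 0 < ε) :
    ∃ D : ℕ, ∀ R : ℕ, ∃ N : ℕ, ∀ t : Fin (k + 2) → ℕ, (∀ i j, i < j → t i + N ≤ t j) →
      ∃ F : Finset (Fin (k + 2) → ℕ),
        (F.card : ℝ) * ε ^ 2 ≤ ∏ i, (∫ x, (f i x - ∫ y, f i y ∂μ) ^ 2 ∂μ) ∧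
        ∀ a : Fin (k + 2) → ℕ, a 0 = 0 → (∀ i, a i ≤ R) →
          ε ≤ |dev μ T f (fun i => t i + a i)| →
          ∃ b ∈ F, ∀ i, a i < b i + D ∧ b i < a i + D := by
  classical
  set V : ℝ := ∏ i, (∫ x, (f i x - ∫ y, f i y ∂μ) ^ 2 ∂μ) with hV
  have hVn : 0 ≤ V := Finset.prod_nonneg fun i _ => integral_nonneg fun x => sq_nonneg _
  set K : ℕ := ⌊V / ε ^ 2⌋₊ + 1 with hK
  have hK1 : V < K * ε ^ 2 := by
    have := Nat.lt_floor_add_one (V / ε ^ 2)
    rw [div_lt_iff₀ (by positivity)] at this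
    rw [hK]
    push_cast
    exact this
  obtain ⟨D, hD1, hD⟩ := bessel_window hT hk hfact f hf
    (show 0 < (K * ε ^ 2 - V) / 2 by linarith) K
  refine ⟨D, fun R => ?_⟩
  obtain ⟨N, hN⟩ := hD R
  refine ⟨N, fun t ht => ?_⟩
  set A : Set (Fin (k + 2) → ℕ) := {a | a 0 = 0 ∧ (∀ i, a i ≤ R) ∧
        ε ≤ |dev μ T f (fun i => t i + a i)|} with hA
  have hfin : A.Finite := by
    refine (Set.Finite.pi (fun _ : Fin (k + 2) => Set.finite_Iic R)).subset ?_
    intro a ha
    simp only [Set.mem_pi, Set.mem_univ, Set.mem_Iic, forall_true_left]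
    exact ha.2.1
  obtain ⟨F, hFA, hFsep, hFmax⟩ := exists_maximal_separated D hfin.toFinset
  have hFA' : ∀ a ∈ F, a ∈ A := fun a ha => (Set.Finite.mem_toFinset hfin).1 (hFA ha)
  refine ⟨F, ?_, ?_⟩
  · have hcard : F.card < K := by
      by_contra hcon
      push Not at hcon
      obtain ⟨φ⟩ : Nonempty (Fin K ↪ F) := by
        apply Function.Embedding.nonempty_of_card_le
        rw [Fintype.card_fin, Fintype.card_coe]
        exact hcon
      have h1 := hN t ht (fun p => (φ p : Fin (k + 2) → ℕ))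
        (fun p i => (hFA' _ (φ p).2).2.1 i) (fun p => (hFA' _ (φ p).2).1)
        (fun p q hpq => hFsep _ (φ p).2 _ (φ q).2 (fun h => hpq (φ.injective (Subtype.ext h))))
      have h2 : K * ε ^ 2 ≤
          ∑ p : Fin K, (dev μ T f (fun i => t i + (φ p : Fin (k + 2) → ℕ) i)) ^ 2 := by
        calc (K : ℝ) * ε ^ 2 = ∑ _p : Fin K, ε ^ 2 := by simp
          _ ≤ _ := by
            refine Finset.sum_le_sum (fun p _ => ?_)
            rw [← sq_abs (dev μ T f _)]
            exact pow_le_pow_left₀ hε.le (hFA' _ (φ p).2).2.2 2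
      linarith
    have h3 : F.card ≤ ⌊V / ε ^ 2⌋₊ := by omega
    have h4 : (F.card : ℝ) ≤ V / ε ^ 2 :=
      (Nat.cast_le.2 h3).trans (Nat.floor_le (by positivity))
    rwa [le_div_iff₀ (by positivity)] at h4
  · intro a ha0 haR haε
    obtain ⟨b, hb, hab⟩ := hFmax a ((Set.Finite.mem_toFinset hfin).2 ⟨ha0, haR, haε⟩)
    refine ⟨b, hb, fun i => ?_⟩
    rcases hab with hab | hab
    · rw [hab]
      omega
    · by_contra hcon
      apply hab
      exact ⟨i, by omega⟩

end Pool.Agent.H293R3.RM
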