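import Pool.Agent.H716R2.MixK
import Pool.Agent.H716R2.WL

set_option autoImplicit false
set_option linter.unusedSectionVars false
open MeasureTheory Filter Topology
open Pool.Agent.H716R2

namespace Pool.Agent.H293R3.RM

variable {X : Type*} [MeasurableSpace X]

/-- measurable and bounded -/
structure BM (g : X → ℝ) : Prop where
  meas : Measurable g
  bdd : ∃ C : ℝ, ∀ x, ‖g x‖ ≤ C

namespace BM

theorem int {μ : Measure X} [IsProbabilityMeasure μ] {g : X → ℝ} (h : BM g) : Integrable g μ := by
  obtain ⟨C, hC⟩ := h.bdd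
  exact Integrable.of_bound h.meas.aestronglyMeasurable C (Eventually.of_forall hC)

theorem mul {g h : X → ℝ} (hg : BM g) (hh : BM h) : BM (fun x => g x * h x) := by
  obtain ⟨C, hC⟩ := hg.bdd
  obtain ⟨D, hD⟩ := hh.bdd
  refine ⟨hg.meas.mul hh.meas, C * D, fun x => ?_⟩
  rw [norm_mul]
  exact mul_le_mul (hC x) (hD x) (norm_nonneg _) ((norm_nonneg _).trans (hC x))

theorem const (c : ℝ) : BM (fun _ : X => c) := ⟨measurable_const, ‖c‖, fun _ => le_rfl⟩

theorem sub_const {g : X → ℝ} (hg : BM g) (c : ℝ) : BM (fun x => g x - c) := by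
  obtain ⟨C, hC⟩ := hg.bdd
  refine ⟨hg.meas.sub measurable_const, C + ‖c‖, fun x => ?_⟩
  exact (norm_sub_le _ _).trans (add_le_add (hC x) le_rfl)

theorem comp {g : X → ℝ} (hg : BM g) (T : X ≃ᵐ X) (n : ℕ) : BM (fun x => g ((⇑T)^[n] x)) := by
  obtain ⟨C, hC⟩ := hg.bdd
  exact ⟨hg.meas.comp (iter_meas T n), C, fun x => hC _⟩

theorem prod {ι : Type*} (S : Finset ι) {g : ι → X → ℝ} (hg : ∀ i, BM (g i)) :
    BM (fun x => ∏ i ∈ S, g i x) := by
  classical
  induction S using Finset.induction_on with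
  | empty => simpa using const (X := X) 1
  | insert a S ha ih =>
    have : (fun x => ∏ i ∈ insert a S, g i x) = fun x => g a x * ∏ i ∈ S, g i x := by
      ext x
      rw [Finset.prod_insert ha]
    rw [this]
    exact (hg a).mul ih

end BM

/-- Replacing the functions by their centred versions changes the correlations of order `r + 1`
asymptotically by the product of the means, when `r` functions are asymptotically independent. -/
theorem center {μ : Measure X} [IsProbabilityMeasure μ] {T : X ≃ᵐ X}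
    (hT : MeasurePreserving T μ μ) {r : ℕ} (hfact : FactSet μ T r) {s : ℕ → Fin (r + 1) → ℕ}
    (hs : Spread s) (f : Fin (r + 1) → X → ℝ) (hf : ∀ i, BM (f i)) :
    Tendsto (fun n => (∫ x, ∏ i, f i ((⇑T)^[s n i] x) ∂μ - ∏ i, ∫ x, f i x ∂μ)
      - ∫ x, ∏ i, (f i ((⇑T)^[s n i] x) - ∫ y, f i y ∂μ) ∂μ) atTop (𝓝 0) := by
  classical
  let m : Fin (r + 1) → ℝ := fun i => ∫ y, f i y ∂μ
  let g : Fin (r + 1) → X → ℝ := fun i x => f i x - m i
  have hg : ∀ i, BM (g i) := fun i => (hf i).sub_const _
  let J : Finset (Fin (r + 1)) → ℕ → ℝ := fun S n => ∫ x, ∏ i ∈ S, g i ((⇑T)^[s n i] x) ∂μ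
  have hexp : ∀ n, ∫ x, ∏ i, f i ((⇑T)^[s n i] x) ∂μ
      = ∑ S ∈ (Finset.univ : Finset (Fin (r + 1))).powerset,
        J S n * ∏ i ∈ Finset.univ \ S, m i := by
    intro n
    have h1 : ∀ x, ∏ i, f i ((⇑T)^[s n i] x)
        = ∑ S ∈ (Finset.univ : Finset (Fin (r + 1))).powerset,
          (∏ i ∈ S, g i ((⇑T)^[s n i] x)) * ∏ i ∈ Finset.univ \ S, m i := by
      intro x
      rw [← Finset.prod_add]
      refine Finset.prod_congr rfl (fun i _ => ?_)
      simp only [g]
      ring
    simp_rw [h1]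
    rw [integral_finsetSum]
    · refine Finset.sum_congr rfl (fun S _ => ?_)
      rw [integral_mul_const]
    · intro S _
      exact ((BM.prod S (fun i => (hg i).comp T (s n i))).int).mul_const _
  have hJ : ∀ S : Finset (Fin (r + 1)), S ≠ Finset.univ →
      Tendsto (J S) atTop (𝓝 (if S = ∅ then 1 else 0)) := by
    intro S hS
    obtain ⟨j, hj⟩ : ∃ j, j ∉ S := by
      by_contra h
      push Not at h
      exact hS (Finset.eq_univ_iff_forall.2 h)
    let h : Fin (r + 1) → X → ℝ := fun i x => if i ∈ S then g i x else 1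
    have hh : ∀ i, BM (h i) := by
      intro i
      by_cases hi : i ∈ S
      · have : h i = g i := by
          ext x
          simp only [h, hi, if_true]
        rw [this]
        exact hg i
      · have : h i = fun _ => 1 := by
          ext x
          simp only [h, hi, if_false]
        rw [this]
        exact BM.const 1
    have hlim := fact_fun_succ hT hfact hs h (fun i => (hh i).meas) (fun i => (hh i).bdd) j
      (fun x => by simp only [h, hj, if_false])
    have e1 : ∀ n, ∫ x, ∏ i, h i ((⇑T)^[s n i] x) ∂μ = J S n := by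
      intro n
      simp only [J]
      congr 1
      ext x
      simp only [h]
      rw [Finset.prod_ite_mem, Finset.univ_inter]
    have e2 : ∏ i, ∫ x, h i x ∂μ = if S = ∅ then 1 else 0 := by
      split_ifs with h0
      · subst h0
        refine Finset.prod_eq_one (fun i _ => ?_)
        simp [h]
      · obtain ⟨i, hi⟩ := Finset.nonempty_iff_ne_empty.2 h0
        refine Finset.prod_eq_zero (Finset.mem_univ i) ?_
        simp only [h, hi, if_true, g]
        rw [integral_sub (hf i).int (integrable_const _)]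
        simp [m]
    rw [← e2]
    exact hlim.congr e1
  have hlim2 : Tendsto (fun n => ∑ S ∈ ((Finset.univ : Finset (Fin (r + 1))).powerset).erase
      Finset.univ, J S n * ∏ i ∈ Finset.univ \ S, m i) atTop
      (𝓝 (∑ S ∈ ((Finset.univ : Finset (Fin (r + 1))).powerset).erase
      Finset.univ, (if S = ∅ then 1 else 0) * ∏ i ∈ Finset.univ \ S, m i)) := by
    refine tendsto_finsetSum _ (fun S hS => ?_)
    exact (hJ S (Finset.ne_of_mem_erase hS)).mul_const _
  have hval : (∑ S ∈ ((Finset.univ : Finset (Fin (r + 1))).powerset).erase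
      Finset.univ, (if S = ∅ then (1 : ℝ) else 0) * ∏ i ∈ Finset.univ \ S, m i) = ∏ i, m i := by
    rw [Finset.sum_eq_single (∅ : Finset (Fin (r + 1)))]
    · simp
    · intro S _ hS
      rw [if_neg hS, zero_mul]
    · intro hcon
      exfalso
      apply hcon
      rw [Finset.mem_erase]
      refine ⟨?_, by simp⟩
      intro h
      have := Finset.mem_univ (0 : Fin (r + 1))
      rw [← h] at this
      simp at this
  rw [hval] at hlim2
  have hfin := hlim2.sub_const (∏ i, m i)
  rw [sub_self] at hfin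
  refine hfin.congr (fun n => ?_)
  rw [hexp n]
  rw [← Finset.add_sum_erase _ (fun S => J S n * ∏ i ∈ Finset.univ \ S, m i)
    (Finset.mem_powerset_self (Finset.univ : Finset (Fin (r + 1))))]
  simp only [Finset.sdiff_self, Finset.prod_empty, mul_one]
  simp only [J, g, m]
  ring

/-- Bessel inequality for an almost orthogonal system. -/
theorem bessel {μ : Measure X} [IsProbabilityMeasure μ] {K : ℕ} {g0 : X → ℝ} (hg0 : BM g0)
    {v : Fin K → X → ℝ} (hv : ∀ p, BM (v p)) {P δ : ℝ} (hP : 0 ≤ P) (hδ : 0 < δ)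
    (hM : ∀ p q, |∫ x, v p x * v q x ∂μ - (if p = q then P else 0)| ≤ δ) :
    ∑ p, (∫ x, g0 x * v p x ∂μ) ^ 2 ≤ (∫ x, g0 x ^ 2 ∂μ) * (P + K * δ) := by
  classical
  rcases Nat.eq_zero_or_pos K with hK | hK
  · subst hK
    simp only [Finset.univ_eq_empty, Finset.sum_empty, Nat.cast_zero, zero_mul, add_zero]
    exact mul_nonneg (integral_nonneg fun x => sq_nonneg _) hP
  set c : Fin K → ℝ := fun p => ∫ x, g0 x * v p x ∂μ with hc
  set M : Fin K → Fin K → ℝ := fun p q => ∫ x, v p x * v q x ∂μ with hMdef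
  set S : ℝ := ∑ p, c p ^ 2 with hS
  have hS0 : 0 ≤ S := Finset.sum_nonneg fun p _ => sq_nonneg _
  have hKr : (0 : ℝ) < K := by exact_mod_cast hK
  have hPK : 0 < P + K * δ := by positivity
  -- the quadratic form
  have hQ : ∑ p, ∑ q, c p * c q * M p q ≤ S * (P + K * δ) := by
    have h1 : ∑ p, ∑ q, c p * c q * M p q
        = ∑ p, ∑ q, c p * c q * (M p q - if p = q then P else 0) + P * S := by
      have h2 : ∀ p, ∑ q, c p * c q * (if p = q then P else 0) = c p ^ 2 * P := by
        intro p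
        simp only [mul_ite, mul_zero, Finset.sum_ite_eq, Finset.mem_univ, if_true]
        ring
      simp_rw [mul_sub, Finset.sum_sub_distrib, h2, ← Finset.sum_mul]
      rw [← hS]
      ring
    have h3 : ∑ p, ∑ q, c p * c q * (M p q - if p = q then P else 0)
        ≤ ∑ p, ∑ q, |c p| * |c q| * δ := by
      refine Finset.sum_le_sum (fun p _ => Finset.sum_le_sum (fun q _ => ?_))
      refine (le_abs_self _).trans ?_
      rw [abs_mul, abs_mul]
      exact mul_le_mul_of_nonneg_left (hM p q) (by positivity)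
    have h4 : ∑ p, ∑ q, |c p| * |c q| * δ = (∑ p, |c p|) ^ 2 * δ := by
      rw [sq, Finset.sum_mul_sum, Finset.sum_mul]
      refine Finset.sum_congr rfl (fun p _ => ?_)
      rw [Finset.sum_mul]
    have h5 : (∑ p, |c p|) ^ 2 ≤ K * S := by
      have := sq_sum_le_card_mul_sum_sq (s := (Finset.univ : Finset (Fin K))) (f := fun p => |c p|)
      simpa [sq_abs] using this
    nlinarith
  -- the square
  have hvs : BM (fun x => ∑ p, c p * v p x) := by
    obtain ⟨C, hC⟩ : ∃ C : Fin K → ℝ, ∀ p x, ‖v p x‖ ≤ C p := by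
      choose C hC using fun p => (hv p).bdd
      exact ⟨C, hC⟩
    refine ⟨Finset.measurable_sum _ (fun p _ => (measurable_const.mul (hv p).meas)),
      ∑ p, ‖c p‖ * C p, fun x => ?_⟩
    refine (norm_sum_le _ _).trans (Finset.sum_le_sum (fun p _ => ?_))
    rw [norm_mul]
    exact mul_le_mul_of_nonneg_left (hC p x) (norm_nonneg _)
  have hsq : ∀ τ : ℝ, 0 ≤ (∫ x, g0 x ^ 2 ∂μ) - 2 * τ * S
      + τ ^ 2 * ∑ p, ∑ q, c p * c q * M p q := by
    intro τ
    have h1 : 0 ≤ ∫ x, (g0 x - τ * ∑ p, c p * v p x) ^ 2 ∂μ :=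
      integral_nonneg fun x => sq_nonneg _
    have e : ∀ x, (g0 x - τ * ∑ p, c p * v p x) ^ 2
        = g0 x * g0 x - (2 * τ) * (∑ p, c p * (g0 x * v p x))
          + τ ^ 2 * ∑ p, ∑ q, c p * c q * (v p x * v q x) := by
      intro x
      have e1 : ∑ p, ∑ q, c p * c q * (v p x * v q x)
          = (∑ p, c p * v p x) * ∑ q, c q * v q x := by
        rw [Finset.sum_mul_sum]
        refine Finset.sum_congr rfl (fun p _ => Finset.sum_congr rfl (fun q _ => ?_))
        ring
      have e2 : ∑ p, c p * (g0 x * v p x) = g0 x * ∑ p, c p * v p x := by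
        rw [Finset.mul_sum]
        refine Finset.sum_congr rfl (fun p _ => ?_)
        ring
      rw [e1, e2]
      ring
    simp_rw [e] at h1
    have i1 : Integrable (fun x => g0 x * g0 x) μ := (hg0.mul hg0).int
    have i2 : ∀ p, Integrable (fun x => c p * (g0 x * v p x)) μ :=
      fun p => ((hg0.mul (hv p)).int).const_mul _
    have i3 : ∀ p q, Integrable (fun x => c p * c q * (v p x * v q x)) μ :=
      fun p q => (((hv p).mul (hv q)).int).const_mul _
    have i4 : Integrable (fun x => (2 * τ) * (∑ p, c p * (g0 x * v p x))) μ :=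
      (integrable_finsetSum _ (fun p _ => i2 p)).const_mul _
    have i5 : Integrable (fun x => τ ^ 2 * ∑ p, ∑ q, c p * c q * (v p x * v q x)) μ :=
      (integrable_finsetSum _ (fun p _ => integrable_finsetSum _ (fun q _ => i3 p q))).const_mul _
    have i14 : Integrable (fun x => g0 x * g0 x - (2 * τ) * (∑ p, c p * (g0 x * v p x))) μ :=
      i1.sub i4
    rw [integral_add i14 i5, integral_sub i1 i4, integral_const_mul, integral_const_mul,
      integral_finsetSum _ (fun p _ => i2 p),
      integral_finsetSum _ (fun p _ => integrable_finsetSum _ (fun q _ => i3 p q))] at h1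
    have e3 : ∑ p, ∫ x, c p * (g0 x * v p x) ∂μ = S := by
      rw [hS]
      refine Finset.sum_congr rfl (fun p _ => ?_)
      rw [integral_const_mul, sq]
    have e4 : ∑ p, ∫ x, ∑ q, c p * c q * (v p x * v q x) ∂μ = ∑ p, ∑ q, c p * c q * M p q := by
      refine Finset.sum_congr rfl (fun p _ => ?_)
      rw [integral_finsetSum _ (fun q _ => i3 p q)]
      refine Finset.sum_congr rfl (fun q _ => ?_)
      rw [integral_const_mul]
    rw [e3, e4] at h1
    have e5 : ∫ x, g0 x ^ 2 ∂μ = ∫ x, g0 x * g0 x ∂μ := by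
      congr 1
      ext x
      ring
    rw [e5]
    exact h1
  have h := hsq (1 / (P + K * δ))
  have h6 : (1 / (P + K * δ)) ^ 2 * ∑ p, ∑ q, c p * c q * M p q
      ≤ (1 / (P + K * δ)) ^ 2 * (S * (P + K * δ)) :=
    mul_le_mul_of_nonneg_left hQ (by positivity)
  have h7 : (1 / (P + K * δ)) ^ 2 * (S * (P + K * δ)) = S / (P + K * δ) := by
    field_simp
  have h8 : 2 * (1 / (P + K * δ)) * S = 2 * (S / (P + K * δ)) := by ring
  rw [h7] at h6
  rw [h8] at h
  have h9 : S / (P + K * δ) ≤ ∫ x, g0 x ^ 2 ∂μ := by linarith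
  rwa [div_le_iff₀ hPK] at h9

/-- Correlations of shifted copies of one function. -/
theorem shift_corr {μ : Measure X} [IsProbabilityMeasure μ] {T : X ≃ᵐ X}
    (hT : MeasurePreserving T μ μ) {g : X → ℝ} (hg : BM g) {a b : ℕ} (hab : a ≤ b) :
    ∫ y, g ((⇑T)^[a] y) * g ((⇑T)^[b] y) ∂μ = ∫ y, g y * g ((⇑T)^[b - a] y) ∂μ := by
  have h1 : ∫ y, g y * g ((⇑T)^[b - a] y) ∂(μ.map (⇑T)^[a])
      = ∫ y, g ((⇑T)^[a] y) * g ((⇑T)^[b - a] ((⇑T)^[a] y)) ∂μ :=
    integral_map (iter_meas T a).aemeasurable (hg.mul (hg.comp T (b - a))).meas.aestronglyMeasurable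
  rw [(iter_mp hT a).map_eq] at h1
  rw [h1]
  congr 1
  ext y
  rw [← Function.iterate_add_apply, Nat.sub_add_cancel hab]

/-- decay of correlations of a centred function, for shifts which differ a lot. -/
theorem corr_small {μ : Measure X} [IsProbabilityMeasure μ] {T : X ≃ᵐ X}
    (hT : MeasurePreserving T μ μ) (hmix : Mixing μ T) {g : X → ℝ} (hg : BM g)
    (h0 : ∫ x, g x ∂μ = 0) {δ : ℝ} (hδ : 0 < δ) :
    ∃ D : ℕ, ∀ a b : ℕ, (a + D ≤ b ∨ b + D ≤ a) →
      |∫ y, g ((⇑T)^[a] y) * g ((⇑T)^[b] y) ∂μ| ≤ δ := by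
  obtain ⟨C, hC⟩ := hg.bdd
  have h1 := mixing_fun2 hT hmix hg.int hg.meas (C := C) (fun x => by
    simpa [Real.norm_eq_abs] using hC x)
  rw [h0, zero_mul] at h1
  have h2 := (Metric.tendsto_atTop.1 h1) δ hδ
  obtain ⟨D, hD⟩ := h2
  refine ⟨D, fun a b hab => ?_⟩
  rcases hab with hab | hab
  · rw [shift_corr hT hg (by omega)]
    have := hD (b - a) (by omega)
    rw [Real.dist_eq, sub_zero] at this
    exact this.le
  · have e : ∫ y, g ((⇑T)^[a] y) * g ((⇑T)^[b] y) ∂μ
        = ∫ y, g ((⇑T)^[b] y) * g ((⇑T)^[a] y) ∂μ := by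
      congr 1
      ext y
      ring
    rw [e, shift_corr hT hg (by omega)]
    have := hD (a - b) (by omega)
    rw [Real.dist_eq, sub_zero] at this
    exact this.le

/-- The pair `a`, `b` of shifts is `D`-separated. -/
def Sep {m : ℕ} (D : ℕ) (a b : Fin m → ℕ) : Prop := ∃ j, a j + D ≤ b j ∨ b j + D ≤ a j

/-- a product of shifted correlations is small if the shifts are separated. -/
theorem prod_corr_small {μ : Measure X} [IsProbabilityMeasure μ] {T : X ≃ᵐ X}
    (hT : MeasurePreserving T μ μ) (hmix : Mixing μ T) {m : ℕ} {g : Fin m → X → ℝ}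
    (hg : ∀ i, BM (g i)) (h0 : ∀ i, ∫ x, g i x ∂μ = 0) {δ : ℝ} (hδ : 0 < δ) :
    ∃ D : ℕ, ∀ a b : Fin m → ℕ, Sep D a b →
      |∏ i, ∫ y, g i ((⇑T)^[a i] y) * g i ((⇑T)^[b i] y) ∂μ| ≤ δ := by
  classical
  obtain ⟨B, hB1, hB⟩ : ∃ B : ℝ, 1 ≤ B ∧ ∀ i x, |g i x| ≤ B := by
    choose C hC using fun i => (hg i).bdd
    refine ⟨1 + ∑ i, |C i|, ?_, fun i x => ?_⟩
    · have := Finset.sum_nonneg (s := Finset.univ) (f := fun i => |C i|) (fun i _ => abs_nonneg _)
      linarith
    · have h1 : |C i| ≤ ∑ i, |C i| :=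
        Finset.single_le_sum (f := fun i => |C i|) (fun i _ => abs_nonneg _) (Finset.mem_univ i)
      have h2 := hC i x
      rw [Real.norm_eq_abs] at h2
      linarith [le_abs_self (C i)]
  have hcorr : ∀ (i : Fin m) (a b : ℕ), |∫ y, g i ((⇑T)^[a] y) * g i ((⇑T)^[b] y) ∂μ| ≤ B ^ 2 := by
    intro i a b
    refine abs_integral_le_integral_abs.trans ?_
    have h1 : ∫ y, |g i ((⇑T)^[a] y) * g i ((⇑T)^[b] y)| ∂μ ≤ ∫ _y, B ^ 2 ∂μ := by
      refine integral_mono ((((hg i).comp T a).mul ((hg i).comp T b)).int).abs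
        (integrable_const _) (fun y => ?_)
      simp only
      rw [abs_mul, sq]
      exact mul_le_mul (hB i _) (hB i _) (abs_nonneg _) (by linarith)
    simpa using h1
  have hδ1 : 0 < δ / (B ^ 2) ^ m := by positivity
  choose D hD using fun i => corr_small hT hmix (hg i) (h0 i) hδ1
  refine ⟨Finset.univ.sup D, fun a b hab => ?_⟩
  obtain ⟨j, hj⟩ := hab
  have hDj : D j ≤ Finset.univ.sup D := Finset.le_sup (Finset.mem_univ j)
  rw [← Finset.mul_prod_erase Finset.univ _ (Finset.mem_univ j), abs_mul, Finset.abs_prod]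
  have h1 := hD j (a j) (b j) (by omega)
  have h2 : ∏ i ∈ Finset.univ.erase j, |∫ y, g i ((⇑T)^[a i] y) * g i ((⇑T)^[b i] y) ∂μ|
      ≤ (B ^ 2) ^ m := by
    calc ∏ i ∈ Finset.univ.erase j, |∫ y, g i ((⇑T)^[a i] y) * g i ((⇑T)^[b i] y) ∂μ|
        ≤ ∏ i ∈ Finset.univ.erase j, B ^ 2 :=
          Finset.prod_le_prod (fun i _ => abs_nonneg _) (fun i _ => hcorr i _ _)
      _ = (B ^ 2) ^ (Finset.univ.erase j).card := Finset.prod_const _
      _ ≤ (B ^ 2) ^ m := by
          refine pow_le_pow_right₀ (by nlinarith) ?_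
          calc (Finset.univ.erase j).card ≤ (Finset.univ : Finset (Fin m)).card :=
                Finset.card_le_card (Finset.erase_subset _ _)
            _ = m := by simp
  calc _ ≤ (δ / (B ^ 2) ^ m) * (B ^ 2) ^ m :=
        mul_le_mul h1 h2 (Finset.prod_nonneg fun i _ => abs_nonneg _) hδ1.le
    _ = δ := by
        have : (B ^ 2) ^ m ≠ 0 := by positivity
        field_simp

/-- in a large finite set of integer vectors there are many separated ones -/
theorem exists_separated {m : ℕ} {D : ℕ} (hD : 1 ≤ D) : ∀ (K : ℕ) (B : Finset (Fin m → ℕ)),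
    K * (2 * D) ^ m < B.card → ∃ a : Fin K → Fin m → ℕ, (∀ p, a p ∈ B) ∧
      ∀ p q, p ≠ q → Sep D (a p) (a q) := by
  classical
  intro K
  induction K with
  | zero => exact fun B _ => ⟨fun p => p.elim0, fun p => p.elim0, fun p => p.elim0⟩
  | succ K ih =>
    intro B hB
    obtain ⟨b, hb⟩ : B.Nonempty := by
      rw [← Finset.card_pos]
      omega
    set B' := B.filter (fun a => Sep D b a) with hB'
    have hball : (B \ B').card ≤ (2 * D) ^ m := by
      have hsub : B \ B' ⊆ Fintype.piFinset (fun j => Finset.Ico (b j + 1 - D) (b j + D)) := by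
        intro a ha
        rw [Finset.mem_sdiff, hB', Finset.mem_filter] at ha
        obtain ⟨ha1, ha2⟩ := ha
        rw [Fintype.mem_piFinset]
        intro j
        rw [Finset.mem_Ico]
        by_contra hcon
        apply ha2
        refine ⟨ha1, j, ?_⟩
        omega
      refine (Finset.card_le_card hsub).trans ?_
      rw [Fintype.card_piFinset]
      calc ∏ j, (Finset.Ico (b j + 1 - D) (b j + D)).card ≤ ∏ _j : Fin m, (2 * D) := by
            refine Finset.prod_le_prod' (fun j _ => ?_)
            rw [Nat.card_Ico]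
            omega
        _ = (2 * D) ^ m := by simp
    have hcard : K * (2 * D) ^ m < B'.card := by
      have h1 : (B \ B').card + B'.card = B.card :=
        Finset.card_sdiff_add_card_eq_card (Finset.filter_subset _ _)
      have h2 : (K + 1) * (2 * D) ^ m = K * (2 * D) ^ m + (2 * D) ^ m := by ring
      omega
    obtain ⟨a, ha1, ha2⟩ := ih B' hcard
    refine ⟨Fin.cons b a, ?_, ?_⟩
    · intro p
      refine Fin.cases ?_ (fun p => ?_) p
      · simpa using hb
      · simp only [Fin.cons_succ]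
        exact (Finset.mem_filter.1 (ha1 p)).1
    · intro p q hpq
      have hsym : ∀ x y : Fin m → ℕ, Sep D x y → Sep D y x := by
        rintro x y ⟨j, hj⟩
        exact ⟨j, hj.symm⟩
      induction p using Fin.cases with
      | zero =>
        induction q using Fin.cases with
        | zero => exact absurd rfl hpq
        | succ q =>
          simp only [Fin.cons_succ, Fin.cons_zero]
          exact (Finset.mem_filter.1 (ha1 q)).2
      | succ p =>
        induction q using Fin.cases with
        | zero =>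
          simp only [Fin.cons_succ, Fin.cons_zero]
          exact hsym _ _ (Finset.mem_filter.1 (ha1 p)).2
        | succ q =>
          simp only [Fin.cons_succ]
          exact ha2 p q (fun h => hpq (by rw [h]))

end Pool.Agent.H293R3.RM
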